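import Pool.Agent.K9h13.FS.Stm

/-! # CTU: the singular series of a set by the truncated one and the tail factors of the pairs (helper98) -/

set_option autoImplicit false

namespace Pool.Agent.K9h13.FS

open Finset Filter Topology Pool.Agent.H387R2 Pool.Agent.H386R2.HL

namespace CTU98

theorem prod_le {ι : Type*} (Q : Finset ι) (P : ℕ) (hQ : Q.card ≤ P) (t : ι → ℝ) (ht : ∀ q ∈ Q, 1 ≤ t q) :
    ∏ q ∈ Q, t q ≤ 1 + ∑ q ∈ Q, (t q ^ P - 1) := by
  rcases Q.eq_empty_or_nonempty with rfl | hne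
  · simp
  · obtain ⟨q0, hq0, hmax⟩ := Q.exists_max_image t hne
    have h1 : ∏ q ∈ Q, t q ≤ t q0 ^ P := by
      calc ∏ q ∈ Q, t q ≤ ∏ _q ∈ Q, t q0 :=
            prod_le_prod (fun q hq => zero_le_one.trans (ht q hq)) hmax
        _ = t q0 ^ Q.card := by rw [prod_const]
        _ ≤ t q0 ^ P := pow_le_pow_right₀ (ht q0 hq0) hQ
    have h2 : t q0 ^ P - 1 ≤ ∑ q ∈ Q, (t q ^ P - 1) :=
      single_le_sum (f := fun q => t q ^ P - 1)
        (fun q hq => sub_nonneg.mpr (one_le_pow₀ (ht q hq))) hq0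
    linarith

theorem sum_pairs (T : Finset ℕ) (g : ℕ → ℝ) (hg : ∀ d, 0 ≤ g d) :
    ∑ q ∈ prs T.card, g (Nat.dist (Uni.en T q.1) (Uni.en T q.2)) ≤
      ∑ q ∈ (T ×ˢ T).filter (fun q => q.1 < q.2), g (q.2 - q.1) := by
  classical
  have hinj : Set.InjOn (fun q : Fin T.card × Fin T.card => (Uni.en T q.1, Uni.en T q.2))
      (prs T.card : Set (Fin T.card × Fin T.card)) := by
    rintro ⟨a, b⟩ _ ⟨c, d⟩ _ h
    simp only [Prod.mk.injEq] at h
    rw [Uni.en_inj T h.1, Uni.en_inj T h.2]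
  have hmono : StrictMono (Uni.en T) := (T.orderEmbOfFin rfl).strictMono
  have h1 : ∑ q ∈ prs T.card, g (Nat.dist (Uni.en T q.1) (Uni.en T q.2)) =
      ∑ x ∈ (prs T.card).image (fun q => (Uni.en T q.1, Uni.en T q.2)), g (x.2 - x.1) := by
    rw [sum_image hinj]
    refine sum_congr rfl fun q hq => ?_
    have hq' : q.1 < q.2 := (mem_filter.1 hq).2
    rw [Nat.dist_eq_sub_of_le (hmono hq').le]
  rw [h1]
  refine sum_le_sum_of_subset_of_nonneg ?_ fun x _ _ => hg _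
  intro x hx
  obtain ⟨q, hq, rfl⟩ := mem_image.1 hx
  have hq' : q.1 < q.2 := (mem_filter.1 hq).2
  rw [mem_filter, mem_product]
  exact ⟨⟨Uni.en_mem T _, Uni.en_mem T _⟩, hmono hq'⟩

end CTU98

theorem ctu : S_CTU := by
  intro s y T hT
  have hP : (prs T.card).card ≤ (s + 1) * (s + 1) := by
    calc (prs T.card).card ≤ T.card * T.card := Uni.card_prs_le T.card
      _ = (s + 1) * (s + 1) := by rw [hT]
  rw [← Uni.CT_en]
  have h1 := singularSeries_le (Uni.en T) (Uni.en_inj T) y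
  have h2 : ∏ q ∈ prs T.card, tt y (Nat.dist (Uni.en T q.1) (Uni.en T q.2)) ≤
      1 + ∑ q ∈ (T ×ˢ T).filter (fun q => q.1 < q.2), (tt y (q.2 - q.1) ^ ((s + 1) * (s + 1)) - 1) := by
    refine (CTU98.prod_le _ _ hP _ fun q _ => one_le_tt _ _).trans ?_
    have h3 := CTU98.sum_pairs T (fun d => tt y d ^ ((s + 1) * (s + 1)) - 1)
      (fun d => sub_nonneg.mpr (one_le_pow₀ (one_le_tt _ _)))
    simpa using h3
  set R := ∑ q ∈ (T ×ˢ T).filter (fun q => q.1 < q.2), (tt y (q.2 - q.1) ^ ((s + 1) * (s + 1)) - 1) with hR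
  have hR0 : 0 ≤ R := sum_nonneg fun q _ => sub_nonneg.mpr (one_le_pow₀ (one_le_tt _ _))
  have h3 : sy (Uni.en T) y =
      ((Uni.WW y : ℝ) / Nat.totient (Uni.WW y)) ^ (s + 1) * (Uni.gT (Uni.WW y) T / Uni.WW y) := by
    rw [Uni.sy_en, hT]
  have hW : (0 : ℝ) < Uni.WW y := by exact_mod_cast Uni.WW_pos y
  have h4 : (Uni.gT (Uni.WW y) T : ℝ) / Uni.WW y ≤ 1 := by
    rw [div_le_one hW]
    have : Uni.gT (Uni.WW y) T ≤ Uni.WW y := by
      unfold Uni.gT
      exact (card_filter_le _ _).trans (by rw [card_range])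
    exact_mod_cast this
  have hA : (0 : ℝ) ≤ ((Uni.WW y : ℝ) / Nat.totient (Uni.WW y)) ^ (s + 1) := by positivity
  calc singularSeries (Uni.en T) ≤ sy (Uni.en T) y * (1 + R) :=
        h1.trans (mul_le_mul_of_nonneg_left h2 (sy_nonneg _ _))
    _ = sy (Uni.en T) y + sy (Uni.en T) y * R := by ring
    _ ≤ _ := by
        rw [h3]
        refine add_le_add le_rfl (mul_le_mul_of_nonneg_right ?_ hR0)
        exact mul_le_of_le_one_right hA h4

end Pool.Agent.K9h13.FS
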