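import Mathlib

set_option autoImplicit false

namespace Pool.Agent.K9h13.FS.EXPA7

open Finset

/-- multiples of `n` in an interval of length `L` -/
theorem mult_le (n L X : ℕ) (hn : 1 ≤ n) :
    (((Icc (X + 1) (X + L)).filter (fun d => n ∣ d)).card : ℝ) ≤ L / n + 1 := by
  have h1 : ((Icc (X + 1) (X + L)).filter (fun d => n ∣ d)).card ≤ (X + L) / n - X / n := by
    have h2 : (Icc (X + 1) (X + L)).filter (fun d => n ∣ d) =
        (Ioc X (X + L)).filter (fun d => n ∣ d) := by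
      ext d
      simp only [mem_filter, mem_Icc, mem_Ioc]
      omega
    rw [h2]
    have h3 : (Ioc X (X + L)).filter (fun d => n ∣ d) ⊆
        (Ioc (X / n) ((X + L) / n)).image (fun k => n * k) := by
      intro d hd
      rw [mem_filter, mem_Ioc] at hd
      obtain ⟨⟨hd1, hd2⟩, k, rfl⟩ := hd
      rw [mem_image]
      refine ⟨k, mem_Ioc.2 ⟨?_, ?_⟩, rfl⟩
      · rw [Nat.div_lt_iff_lt_mul hn, mul_comm]
        exact hd1
      · rw [Nat.le_div_iff_mul_le hn, mul_comm]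
        exact hd2
    calc _ ≤ ((Ioc (X / n) ((X + L) / n)).image (fun k => n * k)).card := card_le_card h3
      _ ≤ (Ioc (X / n) ((X + L) / n)).card := card_image_le
      _ = _ := Nat.card_Ioc _ _
  have h4 : ((((X + L) / n - X / n : ℕ)) : ℝ) ≤ L / n + 1 := by
    have h5 : (X + L) / n ≤ X / n + L / n + 1 := by
      have hX := Nat.div_add_mod X n
      have hL := Nat.div_add_mod L n
      have hX' := Nat.mod_lt X (show n > 0 by omega)
      have hL' := Nat.mod_lt L (show n > 0 by omega)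
      refine Nat.lt_succ_iff.1 ((Nat.div_lt_iff_lt_mul (by omega)).2 ?_)
      calc X + L = (n * (X / n) + X % n) + (n * (L / n) + L % n) := by rw [hX, hL]
        _ < (n * (X / n) + n) + (n * (L / n) + n) := by omega
        _ = (X / n + L / n + 1).succ * n := by
          rw [Nat.succ_eq_add_one]
          ring
    have h6 : (X + L) / n - X / n ≤ L / n + 1 := Nat.sub_le_iff_le_add.2 (by linarith)
    have h7 : ((L / n : ℕ) : ℝ) ≤ (L : ℝ) / n := Nat.cast_div_le
    have h8 : ((((X + L) / n - X / n : ℕ)) : ℝ) ≤ ((L / n + 1 : ℕ) : ℝ) := by exact_mod_cast h6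
    push_cast at h8
    linarith
  exact le_trans (by exact_mod_cast h1) h4

theorem sum_sq_le (y L : ℕ) (hy : 1 ≤ y) :
    ∑ n ∈ Ioc y L, 1 / ((n : ℝ) ^ 2) ≤ 1 / (y : ℝ) := by
  rcases le_or_gt L y with h | h
  · rw [Ioc_eq_empty (by omega)]
    simp
  · have key : ∀ m : ℕ, y ≤ m → ∑ n ∈ Ioc y m, 1 / ((n : ℝ) ^ 2) ≤ 1 / (y : ℝ) - 1 / (m : ℝ) := by
      intro m hm
      induction m, hm using Nat.le_induction with
      | base => simp
      | succ m hm ih =>
        rw [← Finset.insert_Ioc_right_eq_Ioc_add_one hm, sum_insert (by simp)]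
        have hm0 : (0 : ℝ) < m := by exact_mod_cast (by omega : 0 < m)
        have h1 : 1 / (((m + 1 : ℕ) : ℝ) ^ 2) ≤ 1 / (m : ℝ) - 1 / ((m + 1 : ℕ) : ℝ) := by
          push_cast
          rw [div_sub_div _ _ hm0.ne' (by positivity), div_le_div_iff₀ (by positivity) (by positivity)]
          nlinarith
        linarith
    have h1 := key L h.le
    have h2 : (0 : ℝ) ≤ 1 / (L : ℝ) := by positivity
    linarith

theorem expa : ∀ (c : ℝ) (y L X : ℕ), 0 ≤ c → 1 ≤ y → 1 ≤ L →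
  ∑ d ∈ Icc (X + 1) (X + L), ∏ p ∈ d.primeFactors.filter (fun p => y < p ∧ p ≤ L), (1 + c / (p : ℝ)) ≤
    L * Real.exp (c / y) + Real.exp (c * ∑ p ∈ (Icc 1 L).filter Nat.Prime, 1 / (p : ℝ)) := by
  intro c y L X hc hy hL
  set Pr : Finset ℕ := (Ioc y L).filter Nat.Prime with hPr
  have hsub : ∀ d ∈ Icc (X + 1) (X + L), d.primeFactors.filter (fun p => y < p ∧ p ≤ L) =
      Pr.filter (fun p => p ∣ d) := by
    intro d hd
    have hd0 : d ≠ 0 := by
      have := (mem_Icc.1 hd).1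
      omega
    ext p
    simp only [mem_filter, Nat.mem_primeFactors, hPr, mem_Ioc]
    tauto
  have hexp : ∀ d ∈ Icc (X + 1) (X + L),
      ∏ p ∈ d.primeFactors.filter (fun p => y < p ∧ p ≤ L), (1 + c / (p : ℝ)) =
        ∑ t ∈ Pr.powerset, (if (∏ p ∈ t, p) ∣ d then ∏ p ∈ t, c / (p : ℝ) else 0) := by
    intro d hd
    rw [hsub d hd, Finset.prod_one_add, ← sum_filter]
    refine sum_congr ?_ fun _ _ => rfl
    ext t
    simp only [mem_powerset, mem_filter]
    constructor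
    · intro h
      refine ⟨fun p hp => (mem_filter.1 (h hp)).1, ?_⟩
      refine Finset.prod_primes_dvd d (fun p hp => ?_) (fun p hp => (mem_filter.1 (h hp)).2)
      exact (mem_filter.1 (mem_filter.1 (h hp)).1).2.prime
    · rintro ⟨h1, h2⟩ p hp
      exact mem_filter.2 ⟨h1 hp, (dvd_prod_of_mem _ hp).trans h2⟩
  rw [sum_congr rfl hexp, sum_comm]
  have hterm : ∀ t ∈ Pr.powerset,
      ∑ d ∈ Icc (X + 1) (X + L), (if (∏ p ∈ t, p) ∣ d then ∏ p ∈ t, c / (p : ℝ) else 0) ≤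
        L * ∏ p ∈ t, c / (p : ℝ) ^ 2 + ∏ p ∈ t, c / (p : ℝ) := by
    intro t ht
    have htp : ∀ p ∈ t, p.Prime := fun p hp => (mem_filter.1 (mem_powerset.1 ht hp)).2
    have hn : 1 ≤ ∏ p ∈ t, p := Finset.prod_pos fun p hp => (htp p hp).pos
    rw [← sum_filter, sum_const, nsmul_eq_mul]
    have h0 : 0 ≤ ∏ p ∈ t, c / (p : ℝ) := prod_nonneg fun p _ => by positivity
    have h1 := mul_le_mul_of_nonneg_right (mult_le (∏ p ∈ t, p) L X hn) h0
    refine h1.trans (le_of_eq ?_)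
    rw [add_mul, one_mul]
    congr 1
    rw [div_mul_eq_mul_div, mul_div_assoc]
    congr 1
    push_cast
    rw [← prod_div_distrib]
    refine prod_congr rfl fun p hp => ?_
    rw [div_div, sq]
  refine (sum_le_sum hterm).trans ?_
  rw [sum_add_distrib, ← mul_sum]
  have e1 : ∑ t ∈ Pr.powerset, ∏ p ∈ t, c / (p : ℝ) ^ 2 = ∏ p ∈ Pr, (1 + c / (p : ℝ) ^ 2) :=
    (Finset.prod_one_add _).symm
  have e2 : ∑ t ∈ Pr.powerset, ∏ p ∈ t, c / (p : ℝ) = ∏ p ∈ Pr, (1 + c / (p : ℝ)) :=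
    (Finset.prod_one_add _).symm
  rw [e1, e2]
  have hb1 : ∏ p ∈ Pr, (1 + c / (p : ℝ) ^ 2) ≤ Real.exp (c / y) := by
    calc ∏ p ∈ Pr, (1 + c / (p : ℝ) ^ 2) ≤ ∏ p ∈ Pr, Real.exp (c / (p : ℝ) ^ 2) := by
          refine prod_le_prod (fun p _ => by positivity) fun p _ => ?_
          rw [add_comm]
          exact Real.add_one_le_exp _
      _ = Real.exp (∑ p ∈ Pr, c / (p : ℝ) ^ 2) := (Real.exp_sum _ _).symm
      _ ≤ Real.exp (c / y) := by
          refine Real.exp_le_exp.2 ?_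
          have h1 : ∑ p ∈ Pr, c / (p : ℝ) ^ 2 = c * ∑ p ∈ Pr, 1 / (p : ℝ) ^ 2 := by
            rw [mul_sum]
            exact sum_congr rfl fun p _ => by ring
          rw [h1]
          have h2 : ∑ p ∈ Pr, 1 / (p : ℝ) ^ 2 ≤ 1 / (y : ℝ) :=
            (sum_le_sum_of_subset_of_nonneg (filter_subset _ _) fun _ _ _ => by positivity).trans
              (sum_sq_le y L hy)
          calc c * ∑ p ∈ Pr, 1 / (p : ℝ) ^ 2 ≤ c * (1 / (y : ℝ)) := mul_le_mul_of_nonneg_left h2 hc
            _ = c / y := by ring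
  have hb2 : ∏ p ∈ Pr, (1 + c / (p : ℝ)) ≤
      Real.exp (c * ∑ p ∈ (Icc 1 L).filter Nat.Prime, 1 / (p : ℝ)) := by
    calc ∏ p ∈ Pr, (1 + c / (p : ℝ)) ≤ ∏ p ∈ Pr, Real.exp (c / (p : ℝ)) := by
          refine prod_le_prod (fun p _ => by positivity) fun p _ => ?_
          rw [add_comm]
          exact Real.add_one_le_exp _
      _ = Real.exp (∑ p ∈ Pr, c / (p : ℝ)) := (Real.exp_sum _ _).symm
      _ ≤ _ := by
          refine Real.exp_le_exp.2 ?_
          have h1 : ∑ p ∈ Pr, c / (p : ℝ) = c * ∑ p ∈ Pr, 1 / (p : ℝ) := by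
            rw [mul_sum]
            exact sum_congr rfl fun p _ => by ring
          rw [h1]
          refine mul_le_mul_of_nonneg_left ?_ hc
          refine sum_le_sum_of_subset_of_nonneg ?_ fun _ _ _ => by positivity
          intro p hp
          rw [hPr, mem_filter, mem_Ioc] at hp
          rw [mem_filter, mem_Icc]
          exact ⟨⟨hp.2.one_lt.le, hp.1.2⟩, hp.2⟩
  have hL0 : (0 : ℝ) ≤ L := Nat.cast_nonneg _
  exact add_le_add (mul_le_mul_of_nonneg_left hb1 hL0) hb2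

end Pool.Agent.K9h13.FS.EXPA7
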