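import Pool.Agent.K9h13.FS.Stm
import Pool.Agent.K9h13.FS.Expa0

set_option autoImplicit false

namespace Pool.Agent.K9h13.FS

theorem expa : S_EXPA := EXPA7.expa

end Pool.Agent.K9h13.FS
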