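import Pool.Agent.K9h13.FS.Stm
import Pool.Agent.Erdos456.Mertens

/-! # LEAF MERT -/

set_option autoImplicit false

namespace Pool.Agent.K9h13.FS

open Finset Filter Topology

theorem mert : S_MERT := by
  intro c δ hc hδ
  obtain ⟨C, hC⟩ := Pool.Agent.Erdos456.Mert.mertens_inv
  have h1 := (isLittleO_log_rpow_rpow_atTop c (show (0 : ℝ) < 1 / 2 by norm_num)).def
    (show (0 : ℝ) < δ * Real.exp (-(c * C)) by positivity)
  have h2 := (tendsto_natCast_atTop_atTop (R := ℝ)).eventually h1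
  obtain ⟨L₀, hL₀⟩ := eventually_atTop.1 (h2.and (eventually_ge_atTop 3))
  refine ⟨L₀, fun L hL => ?_⟩
  obtain ⟨h3, h4⟩ := hL₀ L hL
  have hLr : (3 : ℝ) ≤ L := by exact_mod_cast h4
  have hlog : 0 < Real.log L := Real.log_pos (by linarith)
  rw [Real.norm_of_nonneg (Real.rpow_nonneg hlog.le _),
    Real.norm_of_nonneg (Real.rpow_nonneg (by linarith) _), ← Real.sqrt_eq_rpow] at h3
  have h5 := (abs_le.1 (hC L h4)).2
  calc Real.exp (c * ∑ p ∈ (Icc 1 L).filter Nat.Prime, 1 / (p : ℝ))
      ≤ Real.exp (Real.log (Real.log L) * c + c * C) := by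
        apply Real.exp_le_exp.2
        have := mul_le_mul_of_nonneg_left (sub_le_iff_le_add'.1 h5) hc
        linarith
    _ = Real.log L ^ c * Real.exp (c * C) := by
        rw [Real.exp_add, ← Real.rpow_def_of_pos hlog]
    _ ≤ δ * Real.exp (-(c * C)) * Real.sqrt L * Real.exp (c * C) :=
        mul_le_mul_of_nonneg_right h3 (Real.exp_pos _).le
    _ = δ * Real.sqrt L := by
        rw [Real.exp_neg]
        field_simp

end Pool.Agent.K9h13.FS
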