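import Pool.Agent.K9h13.FS.Stm

/-! # Leaf MOM -/

set_option autoImplicit false

namespace Pool.Agent.K9h13.FS

open Finset Filter Topology Pool.Agent.H387R2 Pool.Agent.H386R2.HL

theorem mom (h1 : S_MERT) (h2 : S_EXPA) (h3 : S_TTB) : S_MOM := by
  intro P
  set c : ℝ := (4 : ℝ) ^ P with hc
  have hc0 : 0 < c := by positivity
  have hK : 0 < Real.exp c - 1 := by
    have := Real.add_one_lt_exp hc0.ne'
    linarith
  refine ⟨2 * (Real.exp c - 1), by linarith, ?_⟩
  intro y hy δ hδ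
  have hE : Tendsto (fun L : ℕ => Real.exp (2 * P / Real.log L)) atTop (𝓝 1) := by
    have h : Tendsto (fun L : ℕ => 2 * (P : ℝ) / Real.log L) atTop (𝓝 0) :=
      Tendsto.const_div_atTop (Real.tendsto_log_atTop.comp tendsto_natCast_atTop_atTop) _
    have h' := (Real.continuous_exp.tendsto 0).comp h
    rw [Real.exp_zero] at h'
    exact h'
  have hη : 0 < min 1 (δ / 2) := lt_min one_pos (by linarith)
  set η := min 1 (δ / 2) with hηd
  have hη1 : η ≤ 1 := min_le_left _ _
  have hη2 : η ≤ δ / 2 := min_le_right _ _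
  obtain ⟨L1, hL1⟩ := eventually_atTop.1
    (hE.eventually (gt_mem_nhds (by linarith : (1 : ℝ) < 1 + η)))
  obtain ⟨L2, hL2⟩ := h1 c (δ / 4) hc0.le (by linarith)
  refine ⟨max (max L1 L2) 2, fun L X M hL hXM hM => ?_⟩
  have hL1' : L1 ≤ L := (le_max_left _ _).trans ((le_max_left _ _).trans hL)
  have hL2' : L2 ≤ L := (le_max_right _ _).trans ((le_max_left _ _).trans hL)
  have hL' : 2 ≤ L := (le_max_right _ _).trans hL
  have hLr : (2 : ℝ) ≤ L := by exact_mod_cast hL'
  have hexp := (hL1 L hL1').le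
  have hm := hL2 L hL2'
  have hsq : Real.sqrt L ≤ L := by
    rw [Real.sqrt_le_left (by linarith)]
    nlinarith
  have hy1 : (1 : ℝ) ≤ y := by exact_mod_cast hy
  -- convexity
  have hconv : Real.exp (c / y) ≤ 1 + (Real.exp c - 1) / y := by
    have h := convexOn_exp.2 (Set.mem_univ 0) (Set.mem_univ c)
      (show (0 : ℝ) ≤ 1 - 1 / y by
        rw [sub_nonneg, div_le_one (by linarith)]
        exact hy1)
      (show (0 : ℝ) ≤ 1 / y by positivity) (by ring)
    simp only [smul_eq_mul, mul_zero, zero_add, Real.exp_zero, mul_one] at h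
    have e1 : 1 / (y : ℝ) * c = c / y := by ring
    rw [e1] at h
    refine h.trans (le_of_eq ?_)
    ring
  have hbd : ∀ d ∈ Icc (X + 1) (X + L), tt y d ^ P ≤ Real.exp (2 * P / Real.log L) *
      ∏ p ∈ d.primeFactors.filter (fun p => y < p ∧ p ≤ L), (1 + c / (p : ℝ)) := by
    intro d hd
    rw [mem_Icc] at hd
    refine h3 P y L d hL' hy (by omega) ?_
    refine le_trans (Real.log_le_log ?_ ?_) hM
    · exact_mod_cast (by omega : 0 < d)
    · exact_mod_cast (by omega : d ≤ M)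
  have hsum : ∑ d ∈ Icc (X + 1) (X + L), tt y d ^ P ≤
      Real.exp (2 * P / Real.log L) * (L * Real.exp (c / y) +
        Real.exp (c * ∑ p ∈ (Icc 1 L).filter Nat.Prime, 1 / (p : ℝ))) := by
    refine (sum_le_sum hbd).trans ?_
    rw [← mul_sum]
    exact mul_le_mul_of_nonneg_left (h2 c y L X hc0.le hy (by omega)) (Real.exp_pos _).le
  have hcard : ∑ _d ∈ Icc (X + 1) (X + L), (1 : ℝ) = L := by
    rw [sum_const, Nat.card_Icc, nsmul_eq_mul, mul_one]
    congr 1
    omega
  rw [sum_sub_distrib, hcard]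
  have hB : L * Real.exp (c / y) + Real.exp (c * ∑ p ∈ (Icc 1 L).filter Nat.Prime, 1 / (p : ℝ)) ≤
      L * (1 + (Real.exp c - 1) / y + δ / 4) := by
    have h4 : Real.exp (c * ∑ p ∈ (Icc 1 L).filter Nat.Prime, 1 / (p : ℝ)) ≤ δ / 4 * L :=
      hm.trans (mul_le_mul_of_nonneg_left hsq (by linarith))
    have h5 : (L : ℝ) * Real.exp (c / y) ≤ L * (1 + (Real.exp c - 1) / y) :=
      mul_le_mul_of_nonneg_left hconv (by linarith)
    linarith
  have hKy : 0 ≤ (Real.exp c - 1) / y := div_nonneg hK.le (by linarith)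
  have hB0 : 0 ≤ L * (1 + (Real.exp c - 1) / y + δ / 4) :=
    mul_nonneg (by linarith) (by linarith)
  have h6 : ∑ d ∈ Icc (X + 1) (X + L), tt y d ^ P ≤
      (1 + η) * (L * (1 + (Real.exp c - 1) / y + δ / 4)) := by
    refine hsum.trans ?_
    refine (mul_le_mul_of_nonneg_left hB (Real.exp_pos _).le).trans ?_
    exact mul_le_mul_of_nonneg_right hexp hB0
  have h7 : (1 + η) * (1 + (Real.exp c - 1) / y + δ / 4) ≤
      1 + (2 * (Real.exp c - 1) / y + δ) := by
    have e2 : 2 * (Real.exp c - 1) / y = 2 * ((Real.exp c - 1) / y) := by ring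
    rw [e2]
    nlinarith [mul_le_mul_of_nonneg_right hη1 hKy, mul_le_mul_of_nonneg_right hη1 hδ.le]
  have h8 : (1 + η) * (L * (1 + (Real.exp c - 1) / y + δ / 4)) ≤
      L * (1 + (2 * (Real.exp c - 1) / y + δ)) := by
    have := mul_le_mul_of_nonneg_left h7 (by linarith : (0 : ℝ) ≤ L)
    linarith
  linarith

end Pool.Agent.K9h13.FS
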