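import Pool.Agent.K9h13.FS.Stm

/-! # Leaf RB -/

set_option autoImplicit false

namespace Pool.Agent.K9h13.FS

open Finset Filter Topology Pool.Agent.H387R2 Pool.Agent.H386R2.HL

theorem rb_factors (y : ℕ) : (Uni.WW y).primeFactors = (Icc 1 y).filter Nat.Prime := by
  have h : (y + 1).primesBelow = (Icc 1 y).filter Nat.Prime := by
    ext p
    rw [Nat.mem_primesBelow, mem_filter, mem_Icc]
    constructor
    · rintro ⟨h1, h2⟩; exact ⟨⟨h2.one_lt.le, by omega⟩, h2⟩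
    · rintro ⟨⟨h1, h2⟩, h3⟩; exact ⟨by omega, h3⟩
  unfold Uni.WW
  rw [h]
  exact Nat.primeFactors_prod fun p hp => (mem_filter.1 hp).2

theorem rb_pos (y : ℕ) : 0 < Uni.WW y := by
  unfold Uni.WW
  exact prod_pos fun p hp => (Nat.mem_primesBelow.1 hp).2.pos

theorem rb_bound (y : ℕ) : ((Uni.WW y : ℝ) / Nat.totient (Uni.WW y)) ≤
    Real.exp (2 * ∑ p ∈ (Icc 1 y).filter Nat.Prime, 1 / (p : ℝ)) := by
  have hW : (0 : ℝ) < Uni.WW y := by exact_mod_cast rb_pos y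
  have h1 : ((Nat.totient (Uni.WW y) : ℕ) : ℝ) =
      (Uni.WW y : ℝ) * ∏ p ∈ (Icc 1 y).filter Nat.Prime, (1 - (p : ℝ)⁻¹) := by
    have h2 := Nat.totient_eq_mul_prod_factors (Uni.WW y)
    rw [rb_factors] at h2
    have h3 := congrArg (fun q : ℚ => (q : ℝ)) h2
    push_cast at h3
    exact h3
  rw [h1, ← div_div, div_self hW.ne', mul_sum, Real.exp_sum, one_div, ← prod_inv_distrib]
  refine prod_le_prod (fun p hp => ?_) (fun p hp => ?_)
  · have h2 : (2 : ℝ) ≤ p := by exact_mod_cast (mem_filter.1 hp).2.two_le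
    have h3 : (p : ℝ)⁻¹ ≤ 1 := inv_le_one_of_one_le₀ (by linarith)
    exact inv_nonneg.2 (by linarith)
  · have h2 : (2 : ℝ) ≤ p := by exact_mod_cast (mem_filter.1 hp).2.two_le
    have h3 : (p : ℝ)⁻¹ ≤ 1 / 2 := by
      rw [one_div]; exact inv_anti₀ (by norm_num) h2
    have h4 : 0 < (p : ℝ)⁻¹ := by positivity
    have h5 := Real.add_one_le_exp (2 * (1 / (p : ℝ)))
    rw [one_div] at h5 ⊢
    refine le_trans ?_ h5
    rw [inv_le_comm₀ (by linarith) (by linarith), inv_eq_one_div, div_le_iff₀ (by linarith)]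
    nlinarith

theorem rb (h1 : S_MERT) : S_RB := by
  intro k
  obtain ⟨L₀, hL⟩ := h1 (2 * k) 1 (by positivity) one_pos
  have hnn : ∀ y : ℕ, 0 ≤ ((Uni.WW y : ℝ) / Nat.totient (Uni.WW y)) ^ k := fun y => by positivity
  refine ⟨1 + ∑ y ∈ range L₀, ((Uni.WW y : ℝ) / Nat.totient (Uni.WW y)) ^ k, ?_, ?_⟩
  · have : 0 ≤ ∑ y ∈ range L₀, ((Uni.WW y : ℝ) / Nat.totient (Uni.WW y)) ^ k :=
      sum_nonneg fun y _ => hnn y
    linarith
  · intro y hy
    have hS : 0 ≤ ∑ y ∈ range L₀, ((Uni.WW y : ℝ) / Nat.totient (Uni.WW y)) ^ k :=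
      sum_nonneg fun y _ => hnn y
    have hy1 : 1 ≤ Real.sqrt y := by
      rw [Real.one_le_sqrt]; exact_mod_cast hy
    rcases Nat.lt_or_ge y L₀ with h | h
    · have h2 : ((Uni.WW y : ℝ) / Nat.totient (Uni.WW y)) ^ k ≤
          ∑ y ∈ range L₀, ((Uni.WW y : ℝ) / Nat.totient (Uni.WW y)) ^ k :=
        single_le_sum (f := fun y : ℕ => ((Uni.WW y : ℝ) / Nat.totient (Uni.WW y)) ^ k)
          (fun y _ => hnn y) (mem_range.2 h)
      nlinarith
    · have h2 := hL y h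
      have h3 : ((Uni.WW y : ℝ) / Nat.totient (Uni.WW y)) ^ k ≤
          Real.exp (2 * k * ∑ p ∈ (Icc 1 y).filter Nat.Prime, 1 / (p : ℝ)) := by
        refine (pow_le_pow_left₀ (by positivity) (rb_bound y) k).trans (le_of_eq ?_)
        rw [← Real.exp_nat_mul]
        congr 1
        ring
      rw [one_mul] at h2
      nlinarith

end Pool.Agent.K9h13.FS
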