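import Pool.Agent.K9h13.FS.Stm

/-! # Leaf TTB -/

set_option autoImplicit false

namespace Pool.Agent.K9h13.FS

open Finset Filter Topology Pool.Agent.H387R2 Pool.Agent.H386R2.HL

lemma ttb_pow (P : ℕ) {x : ℝ} (h0 : 0 ≤ x) (h1 : x ≤ 1) :
    (1 + x) ^ P ≤ 1 + (2 ^ P - 1) * x := by
  induction P with
  | zero => simp
  | succ n ih =>
    have h2 : (1 : ℝ) ≤ 2 ^ n := one_le_pow₀ (by norm_num)
    have h3 : (1 + x) ^ (n + 1) ≤ (1 + (2 ^ n - 1) * x) * (1 + x) := by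
      rw [pow_succ]
      exact mul_le_mul_of_nonneg_right ih (by linarith)
    refine h3.trans ?_
    have h4 : 0 ≤ ((2 : ℝ) ^ n - 1) * (x * (1 - x)) :=
      mul_nonneg (by linarith) (mul_nonneg h0 (by linarith))
    rw [pow_succ]
    nlinarith

lemma ttb_fac (P p : ℕ) (hp : 2 ≤ p) : ((1 - 1 / (p : ℝ))⁻¹) ^ P ≤ 1 + (4 : ℝ) ^ P / p := by
  have hp2 : (2 : ℝ) ≤ p := by exact_mod_cast hp
  have hp0 : (0 : ℝ) < p := by linarith
  have a1 : (1 - 1 / (p : ℝ))⁻¹ ≤ 1 + 2 / p := by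
    have a2 : 1 - 1 / (p : ℝ) = (p - 1) / p := by field_simp
    rw [a2, inv_div, div_le_iff₀ (by linarith)]
    have : (1 + 2 / (p : ℝ)) * (p - 1) = p + 1 - 2 / p := by field_simp; ring
    rw [this]
    have : 2 / (p : ℝ) ≤ 1 := by rw [div_le_one hp0]; exact hp2
    linarith
  have a0 : 0 ≤ (1 - 1 / (p : ℝ))⁻¹ := by
    apply inv_nonneg.2
    have : 1 / (p : ℝ) ≤ 1 := by rw [div_le_one hp0]; linarith
    linarith
  have a3 : 2 / (p : ℝ) ≤ 1 := by rw [div_le_one hp0]; exact hp2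
  have a4 : (0 : ℝ) ≤ 2 / p := by positivity
  calc ((1 - 1 / (p : ℝ))⁻¹) ^ P ≤ (1 + 2 / (p : ℝ)) ^ P := pow_le_pow_left₀ a0 a1 P
    _ ≤ 1 + (2 ^ P - 1) * (2 / (p : ℝ)) := ttb_pow P a4 a3
    _ = 1 + (2 * 2 ^ P - 2) / (p : ℝ) := by ring
    _ ≤ 1 + (4 : ℝ) ^ P / p := by
      have h4 : (4 : ℝ) ^ P = 2 ^ P * 2 ^ P := by rw [← mul_pow]; norm_num
      have h5 : 2 * (2 : ℝ) ^ P - 2 ≤ 4 ^ P := by
        rw [h4]; nlinarith [sq_nonneg ((2 : ℝ) ^ P - 1)]
      have := div_le_div_of_nonneg_right h5 hp0.le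
      linarith

theorem ttb : S_TTB := by
  intro P y L d hL hy hd hlog
  classical
  have hL1 : (1 : ℝ) < L := by exact_mod_cast (by omega : 1 < L)
  have hlogL : 0 < Real.log L := Real.log_pos hL1
  have hL0 : (0 : ℝ) < L := by linarith
  have hone : ∀ p ∈ d.primeFactors, (1 : ℝ) ≤ (1 - 1 / (p : ℝ))⁻¹ := fun p hp =>
    one_le_inv (Nat.prime_of_mem_primeFactors hp)
  -- splitting
  have h1 : tt y d ≤ (∏ p ∈ d.primeFactors.filter (fun p => y < p ∧ p ≤ L),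
      (1 - 1 / (p : ℝ))⁻¹) * tt L d := by
    unfold tt
    rw [← prod_filter_mul_prod_filter_not (d.primeFactors.filter (fun p => y < p)) (fun p => p ≤ L),
      filter_filter, filter_filter]
    apply mul_le_mul_of_nonneg_left
    · apply prod_mono_set
      · intro p hp
        rw [mem_filter] at hp ⊢
        exact ⟨hp.1, not_le.1 hp.2.2⟩
      · intro p hp
        exact hone p (mem_filter.1 hp).1
    · exact prod_nonneg fun p hp => zero_le_one.trans (hone p (mem_filter.1 hp).1)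
  have h2 : tt L d ≤ Real.exp (2 / Real.log L) := by
    refine (Uni.tt_le L d hL hd).trans (Real.exp_le_exp.2 ?_)
    rw [div_le_div_iff₀ (by positivity) hlogL]
    nlinarith [mul_le_mul_of_nonneg_right hlog hlogL.le]
  have h0 : 0 ≤ tt y d := zero_le_one.trans (one_le_tt y d)
  have hpn : 0 ≤ ∏ p ∈ d.primeFactors.filter (fun p => y < p ∧ p ≤ L), (1 - 1 / (p : ℝ))⁻¹ :=
    prod_nonneg fun p hp => zero_le_one.trans (hone p (mem_filter.1 hp).1)
  have h3 : tt y d ^ P ≤ ((∏ p ∈ d.primeFactors.filter (fun p => y < p ∧ p ≤ L),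
      (1 - 1 / (p : ℝ))⁻¹) * Real.exp (2 / Real.log L)) ^ P :=
    pow_le_pow_left₀ h0 (h1.trans (mul_le_mul_of_nonneg_left h2 hpn)) P
  refine h3.trans ?_
  rw [mul_pow, ← prod_pow, ← Real.exp_nat_mul, mul_comm]
  have h4 : (P : ℝ) * (2 / Real.log L) = 2 * P / Real.log L := by ring
  rw [h4]
  apply mul_le_mul_of_nonneg_left _ (Real.exp_pos _).le
  apply Finset.prod_le_prod
  · intro p hp
    exact pow_nonneg (zero_le_one.trans (hone p (mem_filter.1 hp).1)) P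
  · intro p hp
    exact ttb_fac P p (Nat.prime_of_mem_primeFactors (mem_filter.1 hp).1).two_le

end Pool.Agent.K9h13.FS
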