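import Pool.Agent.K9h13.FS.Stm

/-! # Pairs in subsets -/

set_option autoImplicit false

namespace Pool.Agent.K9h13.FS

open Finset

theorem tup_card (s : ℕ) (V : Finset ℕ) (a b : ℕ) (hab : a < b) :
    ((V.powersetCard (s + 1)).filter (fun T => a ∈ T ∧ b ∈ T)).card ≤ V.card ^ (s - 1) := by
  classical
  rcases Nat.eq_zero_or_pos s with rfl | hs
  · have h1 : (V.powersetCard (0 + 1)).filter (fun T => a ∈ T ∧ b ∈ T) = ∅ := by
      rw [filter_eq_empty_iff]
      rintro T hT ⟨ha, hb⟩
      have h2 := (mem_powersetCard.1 hT).2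
      have h3 : ({a, b} : Finset ℕ) ⊆ T := by
        intro x hx
        rcases mem_insert.1 hx with rfl | hx
        · exact ha
        · rw [mem_singleton.1 hx]
          exact hb
      have h4 := card_le_card h3
      rw [card_pair hab.ne] at h4
      omega
    rw [h1, card_empty]
    exact Nat.zero_le _
  · have h1 : ((V.powersetCard (s + 1)).filter (fun T => a ∈ T ∧ b ∈ T)).card ≤
        (V.powersetCard (s - 1)).card := by
      refine card_le_card_of_injOn (fun T => (T.erase a).erase b) ?_ ?_
      · intro T hT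
        have hT' := mem_filter.1 hT
        obtain ⟨h2, h3⟩ := mem_powersetCard.1 hT'.1
        refine mem_coe.2 (mem_powersetCard.2 ⟨?_, ?_⟩)
        · exact ((erase_subset _ _).trans (erase_subset _ _)).trans h2
        · have h4 : b ∈ T.erase a := mem_erase.2 ⟨hab.ne', hT'.2.2⟩
          rw [card_erase_of_mem h4, card_erase_of_mem hT'.2.1, h3]
          omega
      · intro T hT T' hT' h
        have h2 := (mem_filter.1 hT).2
        have h2' := (mem_filter.1 hT').2
        have h4 : b ∈ T.erase a := mem_erase.2 ⟨hab.ne', h2.2⟩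
        have h4' : b ∈ T'.erase a := mem_erase.2 ⟨hab.ne', h2'.2⟩
        change (T.erase a).erase b = (T'.erase a).erase b at h
        rw [← insert_erase h2.1, ← insert_erase h2'.1, ← insert_erase h4, ← insert_erase h4', h]
    refine h1.trans ?_
    rw [card_powersetCard]
    exact Nat.choose_le_pow _ _

theorem tup : S_TUP := by
  classical
  intro s V g hg
  have h1 : ∀ T ∈ V.powersetCard (s + 1),
      (∑ q ∈ (T ×ˢ T).filter (fun q => q.1 < q.2), g (q.2 - q.1)) =
      ∑ q ∈ (V ×ˢ V).filter (fun q => q.1 < q.2), if (q.1 ∈ T ∧ q.2 ∈ T) then g (q.2 - q.1) else 0 := by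
    intro T hT
    have hTV := (mem_powersetCard.1 hT).1
    rw [← sum_filter]
    refine sum_congr ?_ (fun _ _ => rfl)
    ext q
    simp only [mem_filter, mem_product]
    constructor
    · rintro ⟨⟨a, b⟩, c⟩
      exact ⟨⟨⟨hTV a, hTV b⟩, c⟩, a, b⟩
    · rintro ⟨⟨_, c⟩, a, b⟩
      exact ⟨⟨a, b⟩, c⟩
  rw [sum_congr rfl h1, sum_comm, mul_sum]
  refine sum_le_sum fun q hq => ?_
  rw [← sum_filter, sum_const, nsmul_eq_mul]
  refine mul_le_mul_of_nonneg_right ?_ (hg _)
  exact_mod_cast tup_card s V q.1 q.2 (mem_filter.1 hq).2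

end Pool.Agent.K9h13.FS
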