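import Pool.Agent.K9h13.FS.Expa
import Pool.Agent.K9h13.FS.Mert
import Pool.Agent.K9h13.FS.Mom
import Pool.Agent.K9h13.FS.Rb
import Pool.Agent.K9h13.FS.Ttb
import Pool.Agent.K9h13.FS.Tup
import Pool.Agent.K9h13.FS.CTU

/-! # Assembly of the leaves -/

set_option autoImplicit false

namespace Pool.Agent.K9h13.FS

theorem sMOM : S_MOM := mom mert expa ttb

theorem sRB : S_RB := rb mert

end Pool.Agent.K9h13.FS
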