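import Pool.Agent.K9h13.FS.Stm
import Pool.Agent.K9h13.FH.SS

/-! # Upper bound for the sum of the singular series over the tuples of a log-thick set -/

set_option autoImplicit false

namespace Pool.Agent.K9h13.FS

open Finset Filter Topology Pool.Agent.H387R2 Pool.Agent.H386R2.HL
open Pool.Agent.K9h13.FH (nb Thk)

lemma sum_bU {J : Finset ℕ} (t : ℕ → Finset ℕ) (f : ℕ → ℝ) (hf : ∀ b, 0 ≤ f b) :
    ∑ b ∈ J.biUnion t, f b ≤ ∑ j ∈ J, ∑ b ∈ t j, f b := by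
  classical
  induction J using Finset.induction_on with
  | empty => simp
  | insert j J hj ih =>
    rw [biUnion_insert, sum_insert hj]
    have h1 := sum_union_inter (s₁ := t j) (s₂ := J.biUnion t) (f := f)
    have h2 : 0 ≤ ∑ b ∈ t j ∩ J.biUnion t, f b := sum_nonneg fun b _ => hf b
    linarith

lemma blk1 (L N a j : ℕ) (hL : 1 ≤ L) (hM : j * L + L ≤ N) (g : ℕ → ℝ) (hg : ∀ d, 0 ≤ g d) (K : ℝ)
    (h : ∀ X : ℕ, X + L ≤ N → ∑ d ∈ Icc (X + 1) (X + L), g d ≤ K * L) :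
    ∑ b ∈ (Ico (j * L) (j * L + L)).filter (fun b => a < b), g (b - a) ≤ K * L := by
  obtain ⟨X, hX⟩ : ∃ X, X = j * L - a - 1 := ⟨_, rfl⟩
  have hinj : Set.InjOn (fun b : ℕ => b - a) ((Ico (j * L) (j * L + L)).filter (fun b => a < b) : Finset ℕ) := by
    intro b hb b' hb' h
    rw [mem_coe, mem_filter] at hb hb'
    have e : b - a = b' - a := h
    have h3 := hb.2
    have h4 := hb'.2
    omega
  rw [← sum_image (f := g) hinj]
  refine le_trans (sum_le_sum_of_subset_of_nonneg ?_ fun d _ _ => hg d) (h X (by omega))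
  intro d hd
  obtain ⟨b, hb, rfl⟩ := mem_image.1 hd
  rw [mem_filter, mem_Ico] at hb
  rw [mem_Icc]
  omega

lemma blk (N : ℕ) (hLN : 2 * (⌊Real.log N⌋₊ + 1) ≤ N) (V : Finset ℕ) (hV : ∀ v ∈ V, 2 * v ≤ N)
    (g : ℕ → ℝ) (hg : ∀ d, 0 ≤ g d) (K : ℝ) (hK : ∀ X : ℕ, X + (⌊Real.log N⌋₊ + 1) ≤ N →
      ∑ d ∈ Icc (X + 1) (X + (⌊Real.log N⌋₊ + 1)), g d ≤ K * ((⌊Real.log N⌋₊ + 1 : ℕ) : ℝ)) :
    ∑ q ∈ (V ×ˢ V).filter (fun q => q.1 < q.2), g (q.2 - q.1) ≤
      V.card * (nb N V * (K * ((⌊Real.log N⌋₊ + 1 : ℕ) : ℝ))) := by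
  classical
  obtain ⟨L, hL⟩ : ∃ L, L = ⌊Real.log N⌋₊ + 1 := ⟨_, rfl⟩
  rw [← hL] at hLN hK ⊢
  obtain ⟨J, hJ⟩ : ∃ J, J = V.image (fun v => v / L) := ⟨_, rfl⟩
  have hnb : nb N V = J.card := by rw [hJ, hL]; rfl
  rw [hnb]
  have h1 : ∀ a ∈ V, ∑ b ∈ V.filter (fun b => a < b), g (b - a) ≤ J.card * (K * (L : ℝ)) := by
    intro a _
    have h3 : V.filter (fun b => a < b) ⊆ J.biUnion (fun j => (Ico (j * L) (j * L + L)).filter (fun b => a < b)) := by
      intro b hb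
      rw [mem_filter] at hb
      rw [mem_biUnion]
      refine ⟨b / L, by rw [hJ]; exact mem_image_of_mem _ hb.1, ?_⟩
      rw [mem_filter, mem_Ico]
      refine ⟨⟨Nat.div_mul_le_self b L, ?_⟩, hb.2⟩
      exact Nat.lt_div_mul_add (a := b) (b := L) (by omega)
    calc ∑ b ∈ V.filter (fun b => a < b), g (b - a) ≤
        ∑ b ∈ J.biUnion (fun j => (Ico (j * L) (j * L + L)).filter (fun b => a < b)), g (b - a) :=
          sum_le_sum_of_subset_of_nonneg h3 fun b _ _ => hg _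
      _ ≤ ∑ j ∈ J, ∑ b ∈ (Ico (j * L) (j * L + L)).filter (fun b => a < b), g (b - a) :=
          sum_bU _ _ fun b => hg _
      _ ≤ ∑ _j ∈ J, K * (L : ℝ) := by
          apply sum_le_sum
          intro j hj
          rw [hJ, mem_image] at hj
          obtain ⟨v, hv, hvj⟩ := hj
          have h6 : j * L ≤ v := by rw [← hvj]; exact Nat.div_mul_le_self v L
          have h7 := hV v hv
          exact blk1 L N a j (by omega) (by omega) g hg K hK
      _ = J.card * (K * (L : ℝ)) := by rw [sum_const, nsmul_eq_mul]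
  have h8 : ∑ q ∈ (V ×ˢ V).filter (fun q => q.1 < q.2), g (q.2 - q.1) =
      ∑ a ∈ V, ∑ b ∈ V.filter (fun b => a < b), g (b - a) := by
    rw [sum_filter, sum_product]
    refine sum_congr rfl fun a _ => ?_
    rw [sum_filter]
  rw [h8]
  refine (sum_le_sum h1).trans (le_of_eq ?_)
  rw [sum_const, nsmul_eq_mul]

/-- **The upper bound for the sum of the singular series.** -/
theorem sumCT (hM : S_MOM) (hR : S_RB) (hT : S_TUP) (hC : S_CTU) (s : ℕ) (hs : 1 ≤ s) (c₀ ε : ℝ) (hc₀ : 0 < c₀)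
    (hε : 0 < ε) : ∃ y₀ : ℕ, ∀ y : ℕ, y₀ ≤ y → ∀ᶠ N : ℕ in atTop, ∀ V : Finset ℕ, Thk c₀ N V →
      ∑ T ∈ V.powersetCard (s + 1), Uni.CT T ≤
        ((Uni.WW y : ℝ) / Nat.totient (Uni.WW y)) ^ (s + 1) / Uni.WW y *
          ∑ T ∈ V.powersetCard (s + 1), (Uni.gT (Uni.WW y) T : ℝ) + ε * (V.card : ℝ) ^ (s + 1) := by
  obtain ⟨C, hC0, hMo⟩ := hM ((s + 1) * (s + 1))
  obtain ⟨C', hC'0, hRb⟩ := hR (s + 1)
  obtain ⟨y₁, hy₁⟩ := exists_nat_ge ((4 * C * C' / (c₀ * ε)) ^ 2)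
  refine ⟨max y₁ 1, fun y hy => ?_⟩
  have hy1 : 1 ≤ y := (le_max_right _ _).trans hy
  have hyy : y₁ ≤ y := (le_max_left _ _).trans hy
  have hy0 : (0 : ℝ) < y := by exact_mod_cast hy1
  obtain ⟨r, hr⟩ : ∃ r, r = Real.sqrt y := ⟨_, rfl⟩
  have hr0 : 0 < r := by rw [hr]; exact Real.sqrt_pos.2 hy0
  have hrr : r * r = y := by rw [hr]; exact Real.mul_self_sqrt hy0.le
  have hr1 : 4 * C * C' / (c₀ * ε) ≤ r := by
    rw [hr]
    apply Real.le_sqrt_of_sq_le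
    refine hy₁.trans ?_
    exact_mod_cast hyy
  obtain ⟨δ, hδ⟩ : ∃ δ : ℝ, δ = c₀ * ε / (4 * C' * r) := ⟨_, rfl⟩
  have hδ0 : 0 < δ := by rw [hδ]; positivity
  obtain ⟨L₀, hL₀⟩ := hMo y hy1 δ hδ0
  have hlo : ∀ᶠ N : ℕ in atTop, Real.log (N : ℝ) ≤ (N : ℝ) / 4 := by
    have h1 := (Real.isLittleO_log_id_atTop.def (show (0 : ℝ) < 1 / 4 by norm_num))
    have h2 := tendsto_natCast_atTop_atTop.eventually h1
    filter_upwards [h2, eventually_ge_atTop 1] with x hx1 hx2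
    have hxR : (1 : ℝ) ≤ x := by exact_mod_cast hx2
    simp only [id_eq, Real.norm_eq_abs, abs_of_nonneg (Real.log_nonneg hxR),
      abs_of_nonneg (show (0 : ℝ) ≤ x by linarith)] at hx1
    linarith
  have hll : ∀ᶠ N : ℕ in atTop, (L₀ : ℝ) ≤ Real.log (N : ℝ) :=
    (Real.tendsto_log_atTop.comp tendsto_natCast_atTop_atTop).eventually_ge_atTop _
  filter_upwards [hlo, hll, eventually_ge_atTop 100] with N hlo hll hN V hV
  obtain ⟨hVne, hV2, hVc⟩ := hV
  have hNR : (100 : ℝ) ≤ N := by exact_mod_cast hN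
  have hlog1 : 1 ≤ Real.log N := by
    rw [Real.le_log_iff_exp_le (by linarith)]
    have := Real.exp_one_lt_d9
    linarith
  obtain ⟨L, hL⟩ : ∃ L, L = ⌊Real.log N⌋₊ + 1 := ⟨_, rfl⟩
  have hL1 : (L : ℝ) ≤ Real.log N + 1 := by
    rw [hL]
    push_cast
    have := Nat.floor_le (show 0 ≤ Real.log N by linarith)
    linarith
  have hL2 : Real.log N ≤ L := by
    rw [hL]
    push_cast
    exact (Nat.lt_floor_add_one _).le
  have hLL : L₀ ≤ L := by
    have : (L₀ : ℝ) ≤ L := hll.trans hL2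
    exact_mod_cast this
  have hLN : 2 * L ≤ N := by
    have : (2 * (L : ℝ)) ≤ N := by linarith
    exact_mod_cast this
  obtain ⟨g, hg⟩ : ∃ g : ℕ → ℝ, g = fun d => tt y d ^ ((s + 1) * (s + 1)) - 1 := ⟨_, rfl⟩
  have hg0 : ∀ d, 0 ≤ g d := by
    intro d
    rw [hg]
    have := one_le_pow₀ (one_le_tt y d) (n := (s + 1) * (s + 1))
    show 0 ≤ tt y d ^ ((s + 1) * (s + 1)) - 1
    linarith
  have hb := blk N (by rw [← hL]; exact hLN) V hV2 g hg0 (C / y + δ) (by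
    intro X hX
    rw [← hL] at hX ⊢
    rw [hg]
    exact hL₀ L X N hLL hX hL2)
  rw [← hL] at hb
  have hVp : (0 : ℝ) < V.card := by exact_mod_cast hVne.card_pos
  obtain ⟨R, hRd⟩ : ∃ R : ℝ, R = (Uni.WW y : ℝ) / Nat.totient (Uni.WW y) := ⟨_, rfl⟩
  have hRb' := hRb y hy1
  rw [← hRd, ← hr] at hRb'
  have hR0 : 0 ≤ R := by rw [hRd]; positivity
  rw [← hRd]
  have h1 : ∀ T ∈ V.powersetCard (s + 1), Uni.CT T ≤ R ^ (s + 1) * (Uni.gT (Uni.WW y) T / Uni.WW y) +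
      R ^ (s + 1) * ∑ q ∈ (T ×ˢ T).filter (fun q => q.1 < q.2), g (q.2 - q.1) := by
    intro T hT
    have := hC s y T (mem_powersetCard.1 hT).2
    rw [← hRd] at this
    rw [hg]
    exact this
  refine (sum_le_sum h1).trans ?_
  rw [sum_add_distrib, ← mul_sum, ← mul_sum]
  have e1 : R ^ (s + 1) * ∑ T ∈ V.powersetCard (s + 1), ((Uni.gT (Uni.WW y) T : ℝ) / Uni.WW y) =
      R ^ (s + 1) / Uni.WW y * ∑ T ∈ V.powersetCard (s + 1), (Uni.gT (Uni.WW y) T : ℝ) := by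
    rw [← sum_div]
    ring
  rw [e1]
  have hRs : 0 ≤ R ^ (s + 1) := by positivity
  have h2 := hT s V g hg0
  have h3 : (nb N V : ℝ) * L ≤ 2 * V.card / c₀ := by
    rw [le_div_iff₀ hc₀]
    have h0 : (0 : ℝ) ≤ nb N V := Nat.cast_nonneg _
    have h4 : (nb N V : ℝ) * L ≤ nb N V * (2 * Real.log N) := mul_le_mul_of_nonneg_left (by linarith) h0
    nlinarith
  have h5 : C / y + δ ≤ c₀ * ε / (2 * C' * r) := by
    have h6 : C / y ≤ c₀ * ε / (4 * C' * r) := by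
      rw [div_le_div_iff₀ hy0 (by positivity), ← hrr]
      rw [div_le_iff₀ (by positivity)] at hr1
      have := mul_le_mul_of_nonneg_right hr1 hr0.le
      nlinarith
    have h7 : c₀ * ε / (4 * C' * r) + c₀ * ε / (4 * C' * r) = c₀ * ε / (2 * C' * r) := by
      field_simp
      ring
    linarith
  have h8 : R ^ (s + 1) * ∑ T ∈ V.powersetCard (s + 1), ∑ q ∈ (T ×ˢ T).filter (fun q => q.1 < q.2), g (q.2 - q.1) ≤
      ε * (V.card : ℝ) ^ (s + 1) := by
    calc _ ≤ (C' * r) * ((V.card : ℝ) ^ (s - 1) * (V.card * ((c₀ * ε / (2 * C' * r)) * (2 * V.card / c₀)))) := by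
          apply mul_le_mul hRb' _ _ (by positivity)
          · refine h2.trans ?_
            apply mul_le_mul_of_nonneg_left _ (by positivity)
            refine hb.trans ?_
            apply mul_le_mul_of_nonneg_left _ hVp.le
            calc (nb N V : ℝ) * ((C / y + δ) * L) = (C / y + δ) * (nb N V * L) := by ring
              _ ≤ _ := mul_le_mul h5 h3 (by positivity) (by positivity)
          · exact sum_nonneg fun T _ => sum_nonneg fun q _ => hg0 _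
      _ = ε * ((V.card : ℝ) ^ (s - 1) * (V.card * V.card)) := by
          field_simp
      _ = ε * (V.card : ℝ) ^ (s + 1) := by
          rw [← sq, ← pow_add]
          congr 2
          omega
  linarith

end Pool.Agent.K9h13.FS
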