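import Pool.Agent.K9h13.FH.Hered
import Pool.Agent.K9h13.FS.Mass

/-!
# Every log-thick set of shifts contains its share of prime tuples of the right order: against the full sum
-/

set_option autoImplicit false

namespace Pool.Agent.K9h13.FS

open Finset Filter Topology Pool.Agent.H387R2
open Pool.Agent.N646.RO (S_BRM)
open Pool.Agent.Helper22K9.Trp (pi3 S3 tri st sum_three S3_eq S3_nonneg prs)
open Pool.Agent.K9h13.FC (shp mx pr)
open Pool.Agent.K9h13.FE (cR gdR cR_le_pr conv scale R3 cR_le_pi3 tr3 shR S_HITM)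
open Pool.Agent.K9h13.FH

open Classical in
/-- **Log-thick sets of shifts, `k`-tuples.** -/
theorem shF (hM : S_MOM) (hRB : S_RB) (hTU : S_TUP) (hCU : S_CTU) (hBRM : S_BRM) (s : ℕ) (hs : 1 ≤ s) (hH : T_HITM s) (ε : ℝ) (hε : 0 < ε) (η : ℝ) (hη : 0 < η) :
    ∃ κ : ℝ, 0 < κ ∧ ∃ X : ℝ, ∀ x : ℝ, X ≤ x → ∀ A : Finset ℕ, (∀ a ∈ A, 8 * (a : ℝ) ≤ x) →
      η * (blocks x A * Real.log x) ≤ A.card →
      ((5 / 18) ^ s - ε) * ∑ T ∈ A.powersetCard (s + 1), Uni.CT T ≤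
        ∑ T ∈ (A.powersetCard (s + 1)).filter
          (fun T => κ * Uni.CT T * (x / (Real.log x) ^ (s + 1)) ≤ (pr x T : ℝ)), Uni.CT T := by
  obtain ⟨κ, hκ, h⟩ := massF hM hRB hTU hCU hBRM s hs hH ε hε (η / 3) (by positivity)
  refine ⟨κ / 4, by positivity, ?_⟩
  have tN : Tendsto (fun x : ℝ => ⌊x / 3⌋₊) atTop atTop :=
    tendsto_nat_floor_atTop.comp (tendsto_id.atTop_div_const (by norm_num))
  have hev : ∀ᶠ x : ℝ in atTop, ∀ A : Finset ℕ, (∀ a ∈ A, 8 * (a : ℝ) ≤ x) →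
      η * (blocks x A * Real.log x) ≤ A.card →
      ((5 / 18) ^ s - ε) * ∑ T ∈ A.powersetCard (s + 1), Uni.CT T ≤
        ∑ T ∈ (A.powersetCard (s + 1)).filter
          (fun T => κ / 4 * Uni.CT T * (x / (Real.log x) ^ (s + 1)) ≤ (pr x T : ℝ)), Uni.CT T := by
    filter_upwards [tN.eventually h, scale (s + 1), eventually_ge_atTop (1000 : ℝ)] with x hx hsc hx100
      A hA hAη
    rcases A.eq_empty_or_nonempty with hA0 | hAne
    · have e0 : (∅ : Finset ℕ).powersetCard (s + 1) = ∅ := by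
        rw [powersetCard_eq_empty, card_empty]
        omega
      rw [hA0, e0, sum_empty, mul_zero]
      exact sum_nonneg fun T _ => Uni.CT_nonneg T
    obtain ⟨N, hN⟩ : ∃ N, N = ⌊x / 3⌋₊ := ⟨_, rfl⟩
    rw [← hN] at hx hsc
    have hb1 : x / 3 < N + 1 := by rw [hN]; exact Nat.lt_floor_add_one _
    have hb2 : (N : ℝ) ≤ x / 3 := by rw [hN]; exact Nat.floor_le (by positivity)
    have key := hx A (thk_of η x hη hx100 N (by linarith) (by linarith) A hAne hA hAη)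
    refine key.trans ?_
    apply sum_le_sum_of_subset_of_nonneg
    · intro T hT
      unfold gdR at hT
      rw [mem_filter] at hT ⊢
      exact ⟨hT.1, conv hκ hsc hT.2 (cR_le_pr T N x (by push_cast; linarith))⟩
    · intro T _ _
      exact Uni.CT_nonneg T
  obtain ⟨X, hX⟩ := eventually_atTop.1 hev
  exact ⟨X, fun x hx => hX x hx⟩

open Classical in
/-- **Log-thick sets of shifts, triples.** -/
theorem trF (hM : S_MOM) (hRB : S_RB) (hTU : S_TUP) (hCU : S_CTU) (hBRM : S_BRM) (hH : T_HITM 2) (ε : ℝ) (hε : 0 < ε) (η : ℝ) (hη : 0 < η) :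
    ∃ κ : ℝ, 0 < κ ∧ ∃ X : ℝ, ∀ x : ℝ, X ≤ x → ∀ A : Finset ℕ, (∀ a ∈ A, 8 * (a : ℝ) ≤ x) →
      η * (blocks x A * Real.log x) ≤ A.card →
      (25 / 324 - ε) * ∑ u ∈ (A ×ˢ A ×ˢ A).filter (fun u => u.1 < u.2.1 ∧ u.2.1 < u.2.2), S3 (u.2.2 - u.2.1) (u.2.2 - u.1) ≤
        ∑ u ∈ (A ×ˢ A ×ˢ A).filter (fun u => u.1 < u.2.1 ∧ u.2.1 < u.2.2 ∧
            κ ≤ R3 x (u.2.2 - u.2.1) (u.2.2 - u.1)), S3 (u.2.2 - u.2.1) (u.2.2 - u.1) := by
  obtain ⟨κ, hκ, h⟩ := massF hM hRB hTU hCU hBRM 2 (by norm_num) hH ε hε (η / 3) (by positivity)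
  refine ⟨κ / 4, by positivity, ?_⟩
  have tN : Tendsto (fun x : ℝ => ⌊x / 3⌋₊) atTop atTop :=
    tendsto_nat_floor_atTop.comp (tendsto_id.atTop_div_const (by norm_num))
  have hev : ∀ᶠ x : ℝ in atTop, ∀ A : Finset ℕ, (∀ a ∈ A, 8 * (a : ℝ) ≤ x) →
      η * (blocks x A * Real.log x) ≤ A.card → (25 / 324 - ε) * ∑ u ∈ (A ×ˢ A ×ˢ A).filter (fun u => u.1 < u.2.1 ∧ u.2.1 < u.2.2), S3 (u.2.2 - u.2.1) (u.2.2 - u.1) ≤
        ∑ u ∈ (A ×ˢ A ×ˢ A).filter (fun u => u.1 < u.2.1 ∧ u.2.1 < u.2.2 ∧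
            κ / 4 ≤ R3 x (u.2.2 - u.2.1) (u.2.2 - u.1)), S3 (u.2.2 - u.2.1) (u.2.2 - u.1) := by
    filter_upwards [tN.eventually h, scale (2 + 1), eventually_ge_atTop (1000 : ℝ)] with x hx hsc hx100
      A hA hAη
    rcases A.eq_empty_or_nonempty with hA0 | hAne
    · rw [hA0]
      simp
    obtain ⟨N, hN⟩ : ∃ N, N = ⌊x / 3⌋₊ := ⟨_, rfl⟩
    rw [← hN] at hx hsc
    have hb1 : x / 3 < N + 1 := by rw [hN]; exact Nat.lt_floor_add_one _
    have hb2 : (N : ℝ) ≤ x / 3 := by rw [hN]; exact Nat.floor_le (by positivity)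
    have hlogx : 0 < Real.log x := Real.log_pos (by linarith)
    have key := hx A (thk_of η x hη hx100 N (by linarith) (by linarith) A hAne hA hAη)
    have e2 : (5 / 18 : ℝ) ^ 2 = 25 / 324 := by norm_num
    have e7 : (2 + 1 : ℕ) = 3 := rfl
    rw [e2, e7, sum_three A (fun T => Uni.CT T)] at key
    have e8 : ∑ u ∈ (A ×ˢ A ×ˢ A).filter (fun u => u.1 < u.2.1 ∧ u.2.1 < u.2.2), S3 (u.2.2 - u.2.1) (u.2.2 - u.1) =
        ∑ u ∈ tri A, Uni.CT (st u) := by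
      refine sum_congr rfl fun u hu => ?_
      have hu2 := (mem_filter.1 hu).2
      rw [S3_eq hu2.1 hu2.2]
      rfl
    rw [e8]
    refine key.trans ?_
    unfold gdR
    rw [sum_filter, sum_three A (fun T =>
      if κ * Uni.CT T * (N / (Real.log N) ^ (2 + 1)) ≤ (cR N T : ℝ) then Uni.CT T else 0)]
    have e3 : (A ×ˢ A ×ˢ A).filter (fun u => u.1 < u.2.1 ∧ u.2.1 < u.2.2 ∧
            κ / 4 ≤ R3 x (u.2.2 - u.2.1) (u.2.2 - u.1)) =
        (tri A).filter (fun u => κ / 4 ≤ R3 x (u.2.2 - u.2.1) (u.2.2 - u.1)) := by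
      unfold tri
      rw [filter_filter]
      apply filter_congr
      intro u _
      tauto
    rw [e3, sum_filter]
    apply sum_le_sum
    intro u hu
    unfold tri at hu
    rw [mem_filter, mem_product, mem_product] at hu
    obtain ⟨⟨-, -, hcA⟩, hab, hbc⟩ := hu
    have hst : st u = {u.1, u.2.1, u.2.2} := rfl
    rw [hst, ← S3_eq hab hbc]
    have hS0 := S3_nonneg hab hbc
    rcases hS0.eq_or_lt with h0 | hpos
    · rw [← h0]
      simp
    split_ifs with g1 g2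
    · exact le_rfl
    · exfalso
      apply g2
      unfold R3
      rw [le_div_iff₀ (by positivity)]
      have hcD2 := hA _ hcA
      rw [S3_eq hab hbc] at g1
      have h5 := conv hκ hsc g1 (cR_le_pi3 hab hbc N x (by push_cast; linarith))
      rw [← S3_eq hab hbc] at h5
      have h6 := mul_le_mul_of_nonneg_right h5 (by positivity : 0 ≤ (Real.log x) ^ 3)
      refine le_trans (le_of_eq ?_) h6
      field_simp
    · exact hpos.le
    · exact le_rfl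
  obtain ⟨X, hX⟩ := eventually_atTop.1 hev
  exact ⟨X, fun x hx => hX x hx⟩

open Classical in
/-- **Triples: both forms.** -/
theorem trBothF (hM : S_MOM) (hRB : S_RB) (hTU : S_TUP) (hCU : S_CTU) (hBRM : S_BRM) (hF : S_HITM 2) (hH : T_HITM 2) (ε : ℝ) (hε : 0 < ε) (lam η : ℝ) (hlam : 0 < lam)
    (hη : 0 < η) : ∃ κ : ℝ, 0 < κ ∧ ∃ X : ℝ, ∀ x : ℝ, X ≤ x →
      (∀ D : ℕ, lam * Real.log x ≤ D → 8 * (D : ℝ) ≤ x →
        (25 / 324 - ε) * ∑ v ∈ prs D, ((D : ℝ) - v.2) * S3 v.1 v.2 ≤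
          ∑ v ∈ (prs D).filter (fun v => κ ≤ R3 x v.1 v.2), ((D : ℝ) - v.2) * S3 v.1 v.2) ∧
      ∀ A : Finset ℕ, (∀ a ∈ A, 8 * (a : ℝ) ≤ x) → η * (blocks x A * Real.log x) ≤ A.card →
        (25 / 324 - ε) * ∑ u ∈ (A ×ˢ A ×ˢ A).filter (fun u => u.1 < u.2.1 ∧ u.2.1 < u.2.2), S3 (u.2.2 - u.2.1) (u.2.2 - u.1) ≤
          ∑ u ∈ (A ×ˢ A ×ˢ A).filter (fun u => u.1 < u.2.1 ∧ u.2.1 < u.2.2 ∧
              κ ≤ R3 x (u.2.2 - u.2.1) (u.2.2 - u.1)), S3 (u.2.2 - u.2.1) (u.2.2 - u.1) := by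
  obtain ⟨κ₁, h1, X₁, H1⟩ := tr3 hBRM hF ε hε lam hlam
  obtain ⟨κ₂, h2, X₂, H2⟩ := trF hM hRB hTU hCU hBRM hH ε hε η hη
  refine ⟨min κ₁ κ₂, lt_min h1 h2, max X₁ X₂, fun x hx => ⟨fun D hD1 hD2 => ?_, fun A hA hAc => ?_⟩⟩
  · refine (H1 x ((le_max_left _ _).trans hx) D hD1 hD2).trans ?_
    apply sum_le_sum_of_subset_of_nonneg
    · intro v hv
      rw [mem_filter] at hv ⊢
      exact ⟨hv.1, (min_le_left _ _).trans hv.2⟩
    · intro v hv _
      have hv1 := (mem_filter.1 hv).1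
      unfold prs at hv1
      rw [mem_filter, mem_product, mem_Icc, mem_Icc] at hv1
      have h3 : (v.2 : ℝ) ≤ D := by exact_mod_cast hv1.1.2.2
      have h4 : 0 ≤ S3 v.1 v.2 := by
        have h5 : v.2 - v.1 < v.2 := by omega
        have h6 : 0 < v.2 - v.1 := by omega
        have h7 := S3_nonneg h6 h5
        have e1 : v.2 - (v.2 - v.1) = v.1 := by omega
        have e2 : v.2 - 0 = v.2 := by omega
        rw [e1, e2] at h7
        exact h7
      exact mul_nonneg (by linarith) h4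
  · refine (H2 x ((le_max_right _ _).trans hx) A hA hAc).trans ?_
    apply sum_le_sum_of_subset_of_nonneg
    · intro u hu
      rw [mem_filter] at hu ⊢
      exact ⟨hu.1, hu.2.1, hu.2.2.1, (min_le_right _ _).trans hu.2.2.2⟩
    · intro u hu _
      have hu2 := (mem_filter.1 hu).2
      exact S3_nonneg hu2.1 hu2.2.1

open Classical in
/-- **Tuples: both forms.** -/
theorem shBothF (hM : S_MOM) (hRB : S_RB) (hTU : S_TUP) (hCU : S_CTU) (hBRM : S_BRM) (s : ℕ) (hs : 1 ≤ s) (hF : S_HITM s) (hH : T_HITM s) (ε : ℝ) (hε : 0 < ε) (lam η : ℝ)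
    (hlam : 0 < lam) (hη : 0 < η) : ∃ κ : ℝ, 0 < κ ∧ ∃ X : ℝ, ∀ x : ℝ, X ≤ x →
      (∀ D : ℕ, lam * Real.log x ≤ D → 8 * (D : ℝ) ≤ x →
        ((5 / 18) ^ s - ε) * ∑ T ∈ shp (s + 1) D, ((D : ℝ) - mx T) * Uni.CT T ≤
          ∑ T ∈ (shp (s + 1) D).filter (fun T => κ * Uni.CT T * (x / (Real.log x) ^ (s + 1)) ≤ (pr x T : ℝ)),
            ((D : ℝ) - mx T) * Uni.CT T) ∧
      ∀ A : Finset ℕ, (∀ a ∈ A, 8 * (a : ℝ) ≤ x) → η * (blocks x A * Real.log x) ≤ A.card →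
        ((5 / 18) ^ s - ε) * ∑ T ∈ A.powersetCard (s + 1), Uni.CT T ≤
          ∑ T ∈ (A.powersetCard (s + 1)).filter
            (fun T => κ * Uni.CT T * (x / (Real.log x) ^ (s + 1)) ≤ (pr x T : ℝ)), Uni.CT T := by
  obtain ⟨κ₁, h1, X₁, H1⟩ := shR hBRM s hF ε hε lam hlam
  obtain ⟨κ₂, h2, X₂, H2⟩ := shF hM hRB hTU hCU hBRM s hs hH ε hε η hη
  have hmono : ∀ (κ : ℝ) (x : ℝ) (T : Finset ℕ), min κ₁ κ₂ ≤ κ → 1 < x →
      κ * Uni.CT T * (x / (Real.log x) ^ (s + 1)) ≤ (pr x T : ℝ) →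
      min κ₁ κ₂ * Uni.CT T * (x / (Real.log x) ^ (s + 1)) ≤ (pr x T : ℝ) := by
    intro κ x T hκ hx h
    refine le_trans ?_ h
    have h3 : 0 < x / (Real.log x) ^ (s + 1) := by
      have := Real.log_pos hx
      positivity
    apply mul_le_mul_of_nonneg_right _ h3.le
    exact mul_le_mul_of_nonneg_right hκ (Uni.CT_nonneg T)
  refine ⟨min κ₁ κ₂, lt_min h1 h2, max (max X₁ X₂) 2, fun x hx => ⟨fun D hD1 hD2 => ?_, fun A hA hAc => ?_⟩⟩
  · have hx1 : 1 < x := by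
      have := (le_max_right _ _).trans hx
      linarith
    refine (H1 x (((le_max_left _ _).trans (le_max_left _ _)).trans hx) D hD1 hD2).trans ?_
    apply sum_le_sum_of_subset_of_nonneg
    · intro T hT
      rw [mem_filter] at hT ⊢
      exact ⟨hT.1, hmono _ x T (min_le_left _ _) hx1 hT.2⟩
    · intro T hT _
      have hT1 := (mem_filter.1 hT).1
      unfold shp at hT1
      rw [mem_filter, mem_powersetCard] at hT1
      have h3 : mx T ≤ D := by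
        unfold mx
        apply Finset.sup_le
        intro t ht
        exact (mem_range.1 (hT1.1.1 ht)).le
      have h4 : (mx T : ℝ) ≤ D := by exact_mod_cast h3
      exact mul_nonneg (by linarith) (Uni.CT_nonneg T)
  · have hx1 : 1 < x := by
      have := (le_max_right _ _).trans hx
      linarith
    refine (H2 x (((le_max_right _ _).trans (le_max_left _ _)).trans hx) A hA hAc).trans ?_
    apply sum_le_sum_of_subset_of_nonneg
    · intro T hT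
      rw [mem_filter] at hT ⊢
      exact ⟨hT.1, hmono _ x T (min_le_right _ _) hx1 hT.2⟩
    · intro T _ _
      exact Uni.CT_nonneg T

end Pool.Agent.K9h13.FS
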