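import Pool.Agent.K9h13.FS.Fin
import Pool.Agent.K9h13.FS.Hered

/-!
# Every log-thick set of shifts contains its share of prime tuples of the right order: both forms together
-/

set_option autoImplicit false

namespace Pool.Agent.K9h13.FS

open Finset Filter Topology Pool.Agent.H387R2
open Pool.Agent.N646.RO (S_BRM)
open Pool.Agent.Helper22K9.Trp (S3 S3_nonneg prs)
open Pool.Agent.K9h13.FC (shp mx pr)
open Pool.Agent.K9h13.FE (R3 S_HITM)
open Pool.Agent.K9h13.FH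

open Classical in
/-- **Triples.** -/
theorem trMax (hBRM : S_BRM) (hF : S_HITM 2) (hH : T_HITM 2) (ε : ℝ) (hε : 0 < ε) (lam η : ℝ) (hlam : 0 < lam)
    (hη : 0 < η) : ∃ κ : ℝ, 0 < κ ∧ ∃ X : ℝ, ∀ x : ℝ, X ≤ x →
      (∀ D : ℕ, lam * Real.log x ≤ D → 8 * (D : ℝ) ≤ x →
        (25 / 324 - ε) * ∑ v ∈ prs D, ((D : ℝ) - v.2) * S3 v.1 v.2 ≤
          ∑ v ∈ (prs D).filter (fun v => κ ≤ R3 x v.1 v.2), ((D : ℝ) - v.2) * S3 v.1 v.2) ∧
      ∀ A : Finset ℕ, (∀ a ∈ A, 8 * (a : ℝ) ≤ x) → η * (blocks x A * Real.log x) ≤ A.card →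
        (25 / 324 - ε) * max ((A.card : ℝ) ^ 3 / 6)
            (∑ u ∈ (A ×ˢ A ×ˢ A).filter (fun u => u.1 < u.2.1 ∧ u.2.1 < u.2.2),
              S3 (u.2.2 - u.2.1) (u.2.2 - u.1)) ≤
          ∑ u ∈ (A ×ˢ A ×ˢ A).filter (fun u => u.1 < u.2.1 ∧ u.2.1 < u.2.2 ∧
              κ ≤ R3 x (u.2.2 - u.2.1) (u.2.2 - u.1)), S3 (u.2.2 - u.2.1) (u.2.2 - u.1) := by
  obtain ⟨κ₁, h1, X₁, H1⟩ := trBoth hBRM hF hH ε hε lam η hlam hη
  obtain ⟨κ₂, h2, X₂, H2⟩ := trF sMOM sRB tup ctu hBRM hH ε hε η hη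
  have hmA : ∀ (κ : ℝ) (x : ℝ) (A : Finset ℕ), min κ₁ κ₂ ≤ κ →
      ∑ u ∈ (A ×ˢ A ×ˢ A).filter (fun u => u.1 < u.2.1 ∧ u.2.1 < u.2.2 ∧
        κ ≤ R3 x (u.2.2 - u.2.1) (u.2.2 - u.1)), S3 (u.2.2 - u.2.1) (u.2.2 - u.1) ≤
      ∑ u ∈ (A ×ˢ A ×ˢ A).filter (fun u => u.1 < u.2.1 ∧ u.2.1 < u.2.2 ∧
        min κ₁ κ₂ ≤ R3 x (u.2.2 - u.2.1) (u.2.2 - u.1)), S3 (u.2.2 - u.2.1) (u.2.2 - u.1) := by
    intro κ x A hκ
    apply sum_le_sum_of_subset_of_nonneg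
    · intro u hu
      rw [mem_filter] at hu ⊢
      exact ⟨hu.1, hu.2.1, hu.2.2.1, hκ.trans hu.2.2.2⟩
    · intro u hu _
      have hu2 := (mem_filter.1 hu).2
      exact S3_nonneg hu2.1 hu2.2.1
  refine ⟨min κ₁ κ₂, lt_min h1 h2, max X₁ X₂, fun x hx => ⟨fun D hD1 hD2 => ?_, fun A hA hAc => ?_⟩⟩
  · refine ((H1 x ((le_max_left _ _).trans hx)).1 D hD1 hD2).trans ?_
    apply sum_le_sum_of_subset_of_nonneg
    · intro v hv
      rw [mem_filter] at hv ⊢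
      exact ⟨hv.1, (min_le_left _ _).trans hv.2⟩
    · intro v hv _
      have hv1 := (mem_filter.1 hv).1
      unfold prs at hv1
      rw [mem_filter, mem_product, mem_Icc, mem_Icc] at hv1
      have h3 : (v.2 : ℝ) ≤ D := by exact_mod_cast hv1.1.2.2
      have h4 : 0 ≤ S3 v.1 v.2 := by
        have h5 : v.2 - v.1 < v.2 := by omega
        have h6 : 0 < v.2 - v.1 := by omega
        have h7 := S3_nonneg h6 h5
        have e1 : v.2 - (v.2 - v.1) = v.1 := by omega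
        have e2 : v.2 - 0 = v.2 := by omega
        rw [e1, e2] at h7
        exact h7
      exact mul_nonneg (by linarith) h4
  · have g1 := ((H1 x ((le_max_left _ _).trans hx)).2 A hA hAc).trans (hmA κ₁ x A (min_le_left _ _))
    have g2 := (H2 x ((le_max_right _ _).trans hx) A hA hAc).trans (hmA κ₂ x A (min_le_right _ _))
    rcases max_choice ((A.card : ℝ) ^ 3 / 6) (∑ u ∈ (A ×ˢ A ×ˢ A).filter (fun u => u.1 < u.2.1 ∧ u.2.1 < u.2.2),
              S3 (u.2.2 - u.2.1) (u.2.2 - u.1)) with h | h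
    · rw [h]; exact g1
    · rw [h]; exact g2

open Classical in
/-- **Tuples.** -/
theorem shMax (hBRM : S_BRM) (s : ℕ) (hs : 1 ≤ s) (hF : S_HITM s) (hH : T_HITM s) (ε : ℝ) (hε : 0 < ε) (lam η : ℝ)
    (hlam : 0 < lam) (hη : 0 < η) : ∃ κ : ℝ, 0 < κ ∧ ∃ X : ℝ, ∀ x : ℝ, X ≤ x →
      (∀ D : ℕ, lam * Real.log x ≤ D → 8 * (D : ℝ) ≤ x →
        ((5 / 18) ^ s - ε) * ∑ T ∈ shp (s + 1) D, ((D : ℝ) - mx T) * Uni.CT T ≤
          ∑ T ∈ (shp (s + 1) D).filter (fun T => κ * Uni.CT T * (x / (Real.log x) ^ (s + 1)) ≤ (pr x T : ℝ)),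
            ((D : ℝ) - mx T) * Uni.CT T) ∧
      ∀ A : Finset ℕ, (∀ a ∈ A, 8 * (a : ℝ) ≤ x) → η * (blocks x A * Real.log x) ≤ A.card →
        ((5 / 18) ^ s - ε) * max ((A.card : ℝ) ^ (s + 1) / (s + 1).factorial)
            (∑ T ∈ A.powersetCard (s + 1), Uni.CT T) ≤
          ∑ T ∈ (A.powersetCard (s + 1)).filter
            (fun T => κ * Uni.CT T * (x / (Real.log x) ^ (s + 1)) ≤ (pr x T : ℝ)), Uni.CT T := by
  obtain ⟨κ₁, h1, X₁, H1⟩ := shBoth hBRM s hF hH ε hε lam η hlam hη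
  obtain ⟨κ₂, h2, X₂, H2⟩ := shF sMOM sRB tup ctu hBRM s hs hH ε hε η hη
  have hmono : ∀ (κ : ℝ) (x : ℝ) (T : Finset ℕ), min κ₁ κ₂ ≤ κ → 1 < x →
      κ * Uni.CT T * (x / (Real.log x) ^ (s + 1)) ≤ (pr x T : ℝ) →
      min κ₁ κ₂ * Uni.CT T * (x / (Real.log x) ^ (s + 1)) ≤ (pr x T : ℝ) := by
    intro κ x T hκ hx h
    refine le_trans ?_ h
    have h3 : 0 < x / (Real.log x) ^ (s + 1) := by
      have := Real.log_pos hx
      positivity
    apply mul_le_mul_of_nonneg_right _ h3.le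
    exact mul_le_mul_of_nonneg_right hκ (Uni.CT_nonneg T)
  have hmA : ∀ (κ : ℝ) (x : ℝ) (A : Finset ℕ), min κ₁ κ₂ ≤ κ → 1 < x →
      ∑ T ∈ (A.powersetCard (s + 1)).filter
        (fun T => κ * Uni.CT T * (x / (Real.log x) ^ (s + 1)) ≤ (pr x T : ℝ)), Uni.CT T ≤
      ∑ T ∈ (A.powersetCard (s + 1)).filter
        (fun T => min κ₁ κ₂ * Uni.CT T * (x / (Real.log x) ^ (s + 1)) ≤ (pr x T : ℝ)), Uni.CT T := by
    intro κ x A hκ hx
    apply sum_le_sum_of_subset_of_nonneg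
    · intro T hT
      rw [mem_filter] at hT ⊢
      exact ⟨hT.1, hmono _ x T hκ hx hT.2⟩
    · intro T _ _
      exact Uni.CT_nonneg T
  refine ⟨min κ₁ κ₂, lt_min h1 h2, max (max X₁ X₂) 2, fun x hx => ?_⟩
  have hx1 : 1 < x := by
    have := (le_max_right _ _).trans hx
    linarith
  refine ⟨fun D hD1 hD2 => ?_, fun A hA hAc => ?_⟩
  · refine ((H1 x (((le_max_left _ _).trans (le_max_left _ _)).trans hx)).1 D hD1 hD2).trans ?_
    apply sum_le_sum_of_subset_of_nonneg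
    · intro T hT
      rw [mem_filter] at hT ⊢
      exact ⟨hT.1, hmono _ x T (min_le_left _ _) hx1 hT.2⟩
    · intro T hT _
      have hT1 := (mem_filter.1 hT).1
      unfold shp at hT1
      rw [mem_filter, mem_powersetCard] at hT1
      have h3 : mx T ≤ D := by
        unfold mx
        apply Finset.sup_le
        intro t ht
        exact (mem_range.1 (hT1.1.1 ht)).le
      have h4 : (mx T : ℝ) ≤ D := by exact_mod_cast h3
      exact mul_nonneg (by linarith) (Uni.CT_nonneg T)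
  · have g1 := ((H1 x (((le_max_left _ _).trans (le_max_left _ _)).trans hx)).2 A hA hAc).trans
      (hmA κ₁ x A (min_le_left _ _) hx1)
    have g2 := (H2 x (((le_max_right _ _).trans (le_max_left _ _)).trans hx) A hA hAc).trans
      (hmA κ₂ x A (min_le_right _ _) hx1)
    rcases max_choice ((A.card : ℝ) ^ (s + 1) / (s + 1).factorial)
            (∑ T ∈ A.powersetCard (s + 1), Uni.CT T) with h | h
    · rw [h]; exact g1
    · rw [h]; exact g2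

end Pool.Agent.K9h13.FS
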