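import Pool.Agent.H387R2.U2

/-! # Upper bound for the sum of the singular series over the tuples of a log-thick set: statements -/

set_option autoImplicit false

namespace Pool.Agent.K9h13.FS

open Finset Filter Topology Pool.Agent.H387R2 Pool.Agent.H386R2.HL

/-- LEAF MERT (from a Mertens bound `∑_{p ≤ L} 1 / p ≤ log log L + C` of the library, or an elementary one). -/
def S_MERT : Prop := ∀ c δ : ℝ, 0 ≤ c → 0 < δ → ∃ L₀ : ℕ, ∀ L : ℕ, L₀ ≤ L →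
  Real.exp (c * ∑ p ∈ (Icc 1 L).filter Nat.Prime, 1 / (p : ℝ)) ≤ δ * Real.sqrt L

/-- LEAF EXPA. Proof: `∏_{p ∈ S_d} (1 + c / p) = ∑_{t ⊆ S_d} ∏_{p ∈ t} c / p = ∑_{t ⊆ Pr} [∏ t ∣ d] ∏_{p ∈ t} c / p`, `Pr` = the
primes `y < p ≤ L`; the number of the `d` in the interval with `n ∣ d` is at most `L / n + 1` (cf. `mult_le` in the file
`Pool/Agent/K9h13/FH/SS.lean`: copy its 25 lines); `∏_{p ∈ Pr} (1 + c / p²) ≤ exp (c / y)`. -/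
def S_EXPA : Prop := ∀ (c : ℝ) (y L X : ℕ), 0 ≤ c → 1 ≤ y → 1 ≤ L →
  ∑ d ∈ Icc (X + 1) (X + L), ∏ p ∈ d.primeFactors.filter (fun p => y < p ∧ p ≤ L), (1 + c / (p : ℝ)) ≤
    L * Real.exp (c / y) + Real.exp (c * ∑ p ∈ (Icc 1 L).filter Nat.Prime, 1 / (p : ℝ))

/-- LEAF TTB. Proof: `tt y d ≤ tt L d * ∏_{y < p ≤ L, p ∣ d} (1 - 1/p)⁻¹`, `tt L d ≤ exp (2 log d / (L log L))` is
`Uni.tt_le`; `(1 - 1/p)^(-P) ≤ 1 + 4^P / p`. -/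
def S_TTB : Prop := ∀ (P y L d : ℕ), 2 ≤ L → 1 ≤ y → 1 ≤ d → Real.log d ≤ L →
  tt y d ^ P ≤ Real.exp (2 * P / Real.log L) *
    ∏ p ∈ d.primeFactors.filter (fun p => y < p ∧ p ≤ L), (1 + (4 : ℝ) ^ P / (p : ℝ))

/-- LEAF MOM (from MERT, EXPA, TTB): `C = (exp (4^P) - 1) * 2` will do. -/
def S_MOM : Prop := ∀ P : ℕ, ∃ C : ℝ, 0 < C ∧ ∀ y : ℕ, 1 ≤ y → ∀ δ : ℝ, 0 < δ → ∃ L₀ : ℕ, ∀ L X M : ℕ,
  L₀ ≤ L → X + L ≤ M → Real.log M ≤ L → ∑ d ∈ Icc (X + 1) (X + L), (tt y d ^ P - 1) ≤ (C / y + δ) * L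

/-- LEAF RB (from MERT): `W / φ(W) ≤ exp (2 ∑_{p ≤ y} 1 / p)`. -/
def S_RB : Prop := ∀ k : ℕ, ∃ C : ℝ, 0 < C ∧ ∀ y : ℕ, 1 ≤ y →
  ((Uni.WW y : ℝ) / Nat.totient (Uni.WW y)) ^ k ≤ C * Real.sqrt y

/-- LEAF TUP. Proof: a pair is contained in at most `|V| ^ (s - 1)` sets `T`. -/
def S_TUP : Prop := ∀ (s : ℕ) (V : Finset ℕ) (g : ℕ → ℝ), (∀ d, 0 ≤ g d) →
  ∑ T ∈ V.powersetCard (s + 1), ∑ q ∈ (T ×ˢ T).filter (fun q => q.1 < q.2), g (q.2 - q.1) ≤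
    (V.card : ℝ) ^ (s - 1) * ∑ q ∈ (V ×ˢ V).filter (fun q => q.1 < q.2), g (q.2 - q.1)

/-- LEAF CTU. Proof: `Uni.CT_en`, `singularSeries_le`, `Uni.sy_en`, `gT ≤ W`, and
`∏_q t_q - 1 ≤ (max t_q) ^ P - 1 ≤ ∑_q (t_q ^ P - 1)` for numbers `t_q ≥ 1`, at most `P` in number. -/
def S_CTU : Prop := ∀ (s y : ℕ) (T : Finset ℕ), T.card = s + 1 →
  Uni.CT T ≤ ((Uni.WW y : ℝ) / Nat.totient (Uni.WW y)) ^ (s + 1) * (Uni.gT (Uni.WW y) T / Uni.WW y) +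
    ((Uni.WW y : ℝ) / Nat.totient (Uni.WW y)) ^ (s + 1) *
      ∑ q ∈ (T ×ˢ T).filter (fun q => q.1 < q.2), (tt y (q.2 - q.1) ^ ((s + 1) * (s + 1)) - 1)

end Pool.Agent.K9h13.FS
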